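import Pool.Agent.Y143.Par.EulerPow

/-!
# The Weil-Deligne representations of motives in fibre powers of elliptic curves over curves
-/

open Pool.Agent.Y143 Pool.Agent.Y143.Par

universe u v

/-- Independence of `ℓ` for motives with coefficients in `𝒪` cut out by a projector `π` in sums of Tate
twists of parabolic cohomology groups: the characteristic polynomials of the Frobenius on the parts
of `ker N` (the local Euler factor) and `ker N ^ (n + 1)` fixed by `π` have coefficients in `𝒪` and do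
not depend on the coefficient field `Ω` of the realization. -/
theorem Pool.Agent.Results.MP_a3c811_ag.FibrePowerMotives.result {𝒪 : Type} [CommRing 𝒪]
    {ι : Type} [Finite ι] (S : ι → EulerData 𝒪) (t : ι → ℕ) (A : Polynomial 𝒪) {p : ℕ}
    (hp : p ≠ 0) :
    ∃ G : ℕ → Polynomial 𝒪, ∀ (Ω : Type u) [Field Ω] [CharZero Ω] [Algebra 𝒪 Ω]
      [FaithfulSMul 𝒪 Ω] (R : Type) [Field R] [LinearOrder R] [IsStrictOrderedRing R]
      [Algebra R Ω] (q₀ : ℕ)
      (X : ∀ i, Realization.{u, v} (S i) Ω R q₀ p) (V₀ V : Type v) [AddCommGroup V₀]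
      [Module Ω V₀] [Module.Finite Ω V₀] [AddCommGroup V] [Module Ω V] [Module.Finite Ω V]
      (F₀ π₀ : Module.End Ω V₀) (F N π : Module.End Ω V), IsProj π₀ F₀ → HasPoly F₀ π₀ ⊤ A →
        IsTwistedSum p (fun i => (X i).P.H) (fun i => (X i).F) (fun i => (X i).P.N)
          (fun i => (X i).π) t F₀ π₀ F N π →
            ∀ n, HasPoly F π (LinearMap.ker (N ^ (n + 1))) (G n) := by
  cases nonempty_fintype ι
  refine ⟨fun n => A * ∏ i, ((S i).K p n).scaleRoots ((p : 𝒪) ^ t i), ?_⟩
  intro Ω _ _ _ _ R _ _ _ _ q₀ X V₀ V _ _ _ _ _ _ F₀ π₀ F N π h₀ hA hV n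
  exact euler_sum_pow X h₀ hA hV hp (FaithfulSMul.algebraMap_injective 𝒪 Ω) n
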