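import Pool.Agent.Y719.EL.Lift
import Pool.Agent.W655.PG.Desc

/-!
# Independence of `ℓ` of all local Euler factors is a property of positive functions on a line

Let `M` be a Chow motive over `ℚ` and `i` an integer.  For all prime numbers `ℓ ≠ p` there is the
polynomial `P_{p,ℓ}` with coefficients in `ℚ_ℓ`, the characteristic polynomial of the geometric
Frobenius on the inertia invariants of the `ℓ`-adic realisation.  Under all embeddings of `ℚ_ℓ` in `ℂ`
its inverse roots are at most `p^w` in absolute value for some `w`, for all `p ≠ ℓ`, good or bad.  We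
show that the local Euler factors at all primes `p`, the bad ones included, have rational coefficients
and are independent of `ℓ` if and only if the absolute values of the boundary values of the Euler
products, for the various `ℓ` and embeddings in `ℂ`, agree on the line `Re s = w + 1`, and that it is
enough to know that the quotients of the absolute values are nearly constant on sets of positive upper
density of the line.
-/

set_option autoImplicit false

namespace Pool.Agent.Results.MP_a3c811_ag.ModuliDecide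

open MeasureTheory Filter Topology Polynomial

instance primeFact (ℓ : Nat.Primes) : Fact (Nat.Prime (ℓ : ℕ)) := ⟨ℓ.2⟩

/-- The polynomials `P_{p,ℓ}` of the local Euler factors, for prime numbers `p ≠ ℓ`: of degree at most
`n`, with constant coefficient `1`, and with inverse roots at most `p^w` in absolute value under all
embeddings of `ℚ_ℓ` in `ℂ`. -/
structure Factors (n : ℕ) (w : ℝ) where
  /-- the polynomials -/
  P : ∀ ℓ : Nat.Primes, ℕ → ℚ_[ℓ][X]
  degree : ∀ ℓ : Nat.Primes, ∀ p : ℕ, p.Prime → p ≠ ℓ → (P ℓ p).natDegree ≤ n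
  one : ∀ ℓ : Nat.Primes, ∀ p : ℕ, p.Prime → p ≠ ℓ → (P ℓ p).coeff 0 = 1
  weight : ∀ ℓ : Nat.Primes, ∀ p : ℕ, p.Prime → p ≠ ℓ → ∀ ι : ℚ_[ℓ] →+* ℂ, ∀ z : ℂ,
    ((P ℓ p).map ι).eval z = 0 → (p : ℝ) ^ (-w) ≤ ‖z‖

/-- The inverse roots in `ℂ` of the polynomial `P_{p,ℓ}` under the embedding `ι`, for the prime numbers
`p` different from `ℓ` and `ℓ'`. -/
noncomputable def eig {n : ℕ} {w : ℝ} (A : Factors n w) (ℓ ℓ' : Nat.Primes) (ι : ℚ_[ℓ] →+* ℂ)
    (p : ℕ) : Multiset ℂ :=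
  if p = ℓ ∨ p = ℓ' then 0 else ((A.P ℓ p).map ι).roots.map fun z => z⁻¹

/-- The Euler product `∏_p ∏_z (1 - z p^{-s})⁻¹` over the eigenvalues `z`. -/
noncomputable def L (c : ℕ → Multiset ℂ) (s : ℂ) : ℂ :=
  ∏' p : Nat.Primes, ((c p).map fun z => 1 - z * (p : ℂ) ^ (-s)).prod⁻¹

/-- The limit of `|L(w + 1 + σ + iτ)|` for `σ → 0`, `σ > 0`. -/
noncomputable def edgeAbs (w : ℝ) (c : ℕ → Multiset ℂ) (τ : ℝ) : ℝ :=
  limUnder (𝓝[>] (0 : ℝ)) fun σ : ℝ => ‖L c (((w + 1 : ℝ) : ℂ) + σ + τ * Complex.I)‖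

/-- The eigenvalues at `p` are at most `p^w` in absolute value. -/
def Bounded (w : ℝ) (c : ℕ → Multiset ℂ) : Prop :=
  ∀ p : ℕ, p.Prime → ∀ z ∈ c p, ‖z‖ ≤ (p : ℝ) ^ w

/-- The values of `f` are concentrated: there is `δ > 0` such that for every `ε > 0` there are
arbitrarily large `T` and a real number `x` with `|f - x| < ε` on a subset of `(0, T]` of measure at
least `δ T`. -/
def Concentrated (f : ℝ → ℝ) : Prop :=
  ∃ δ : ℝ, 0 < δ ∧ ∀ ε : ℝ, 0 < ε → ∃ᶠ T : ℝ in atTop, ∃ x : ℝ,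
    ENNReal.ofReal (δ * T) ≤ volume {τ | τ ∈ Set.Ioc 0 T ∧ |f τ - x| < ε}

/-- the normalised eigenvalues -/
noncomputable def nrm (w : ℝ) (c : ℕ → Multiset ℂ) (p : ℕ) : Multiset ℂ :=
  (c p).map fun z => z * (((p : ℝ) ^ (-w) : ℝ) : ℂ)

lemma nrm_euler {w : ℝ} {c : ℕ → Multiset ℂ} {D : ℕ} (hb : Bounded w c)
    (hcard : ∀ p : ℕ, p.Prime → Multiset.card (c p) ≤ D) :
    ∃ C, Pool.Agent.Y774.MD.IsEuler (Pool.Agent.Y719.EL.M.PM ∅ (nrm w c)) D 0 C ∅ := by
  have hz : ∀ p : ℕ, p.Prime → ∀ z ∈ nrm w c p, ‖z‖ ≤ 1 := by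
    intro p hp z hz
    obtain ⟨y, hy, rfl⟩ := Multiset.mem_map.1 hz
    have hp0 : (0 : ℝ) < p := by exact_mod_cast hp.pos
    have h1 : 0 < (p : ℝ) ^ (-w) := Real.rpow_pos_of_pos hp0 _
    rw [norm_mul, Complex.norm_real, Real.norm_of_nonneg h1.le]
    calc ‖y‖ * (p : ℝ) ^ (-w) ≤ (p : ℝ) ^ w * (p : ℝ) ^ (-w) :=
          mul_le_mul_of_nonneg_right (hb p hp y hy) h1.le
      _ = 1 := by rw [← Real.rpow_add hp0, add_neg_cancel, Real.rpow_zero]
  have hsum : ∀ p : ℕ, p.Prime → ‖(nrm w c p).sum‖ ≤ D := by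
    intro p hp
    have h1 : ‖(nrm w c p).sum‖ ≤ ((nrm w c p).map fun z => ‖z‖).sum :=
      norm_multiset_sum_le _
    have h2 : ((nrm w c p).map fun z => ‖z‖).sum ≤
        Multiset.card ((nrm w c p).map fun z => ‖z‖) • (1 : ℝ) := by
      refine Multiset.sum_le_card_nsmul _ _ fun x hx => ?_
      obtain ⟨z, hz', rfl⟩ := Multiset.mem_map.1 hx
      exact hz p hp z hz'
    rw [Multiset.card_map] at h2
    unfold nrm at h2
    rw [Multiset.card_map, nsmul_eq_mul, mul_one] at h2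
    refine h1.trans (h2.trans ?_)
    exact_mod_cast hcard p hp
  refine ⟨(D : ℝ) ^ 2 * Real.log 4, Pool.Agent.Y719.EL.M.PM_euler (by norm_num)
    (fun p hp _ => ?_) (fun p hp _ z hz' => ?_) fun x => ?_⟩
  · unfold nrm
    rw [Multiset.card_map]
    exact hcard p hp
  · rw [Real.rpow_zero]
    exact hz p hp z hz'
  · have h3 : ∑ p ∈ (Finset.range x).filter (fun p => p.Prime ∧ p ∉ (∅ : Finset ℕ)), Real.log p ≤
        Real.log 4 * x := by
      refine le_trans ?_ (Chebyshev.theta_le_log4_mul_x (Nat.cast_nonneg x))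
      unfold Chebyshev.theta
      refine Finset.sum_le_sum_of_subset_of_nonneg (fun p hp => ?_)
        fun p _ _ => Real.log_natCast_nonneg _
      rw [Finset.mem_filter, Finset.mem_range] at hp
      rw [Finset.mem_filter, Finset.mem_Ioc, Nat.floor_natCast]
      exact ⟨⟨hp.2.1.pos, hp.1.le⟩, hp.2.1⟩
    calc ∑ p ∈ (Finset.range x).filter (fun p => p.Prime ∧ p ∉ (∅ : Finset ℕ)),
          ‖(nrm w c p).sum‖ ^ 2 * Real.log p
        ≤ ∑ p ∈ (Finset.range x).filter (fun p => p.Prime ∧ p ∉ (∅ : Finset ℕ)),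
          (D : ℝ) ^ 2 * Real.log p := by
          refine Finset.sum_le_sum fun p hp => mul_le_mul_of_nonneg_right ?_
            (Real.log_natCast_nonneg _)
          exact pow_le_pow_left₀ (norm_nonneg _) (hsum p (Finset.mem_filter.1 hp).2.1) 2
      _ = (D : ℝ) ^ 2 * ∑ p ∈ (Finset.range x).filter
          (fun p => p.Prime ∧ p ∉ (∅ : Finset ℕ)), Real.log p := by rw [Finset.mul_sum]
      _ ≤ (D : ℝ) ^ 2 * (Real.log 4 * x) := mul_le_mul_of_nonneg_left h3 (by positivity)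
      _ = _ := by ring

lemma eabs_nrm (w : ℝ) (c : ℕ → Multiset ℂ) (τ : ℝ) :
    Pool.Agent.Y774.MD.eabs (Pool.Agent.Y719.EL.M.PM ∅ (nrm w c)) τ = edgeAbs w c τ := by
  have hL : ∀ s, Pool.Agent.Y774.MD.LQ (Pool.Agent.Y719.EL.M.PM ∅ (nrm w c)) s =
      L c (s + ((w : ℝ) : ℂ)) := by
    intro s
    unfold Pool.Agent.Y774.MD.LQ L
    refine tprod_congr fun p => ?_
    rw [Pool.Agent.Y719.EL.M.fac_PM (Finset.notMem_empty _)]
    unfold nrm
    rw [Multiset.map_map]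
    congr 2
    refine Multiset.map_congr rfl fun z _ => ?_
    simp only [Function.comp_apply]
    have hp0 : (0 : ℝ) < (p : ℕ) := by exact_mod_cast p.2.pos
    have hpc : ((p : ℕ) : ℂ) ≠ 0 := by exact_mod_cast p.2.ne_zero
    have h1 : ((p : ℕ) : ℂ) ^ (-(s + ((w : ℝ) : ℂ))) =
        ((((p : ℕ) : ℝ) ^ (-w) : ℝ) : ℂ) * ((p : ℕ) : ℂ) ^ (-s) := by
      rw [neg_add, Complex.cpow_add _ _ hpc, mul_comm, Complex.ofReal_cpow hp0.le]
      push_cast
      rfl
    rw [h1]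
    ring
  unfold Pool.Agent.Y774.MD.eabs edgeAbs
  congr 1
  funext σ
  rw [hL]
  congr 2
  push_cast
  ring

lemma eig_card {n : ℕ} {w : ℝ} (A : Factors n w) (ℓ ℓ' : Nat.Primes) (ι : ℚ_[ℓ] →+* ℂ) {p : ℕ}
    (hp : p.Prime) : Multiset.card (eig A ℓ ℓ' ι p) ≤ n := by
  unfold eig
  split_ifs with h
  · simp
  · push Not at h
    rw [Multiset.card_map]
    exact (Polynomial.card_roots' _).trans (natDegree_map_le.trans (A.degree ℓ p hp h.1))

lemma eig_ne_zero {n : ℕ} {w : ℝ} (A : Factors n w) (ℓ ℓ' : Nat.Primes) (ι : ℚ_[ℓ] →+* ℂ) {p : ℕ}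
    (hp : p.Prime) : ∀ z ∈ eig A ℓ ℓ' ι p, z ≠ 0 := by
  intro z hz
  unfold eig at hz
  split_ifs at hz with h
  · simp at hz
  · push Not at h
    refine Pool.Agent.Y719.EL.M.sat_ne (P := (A.P ℓ p).map ι) ?_ z hz
    rw [coeff_map, A.one ℓ p hp h.1, map_one]

lemma eig_bounded {n : ℕ} {w : ℝ} (A : Factors n w) (ℓ ℓ' : Nat.Primes) (ι : ℚ_[ℓ] →+* ℂ) :
    Bounded w (eig A ℓ ℓ' ι) := by
  intro p hp z hz
  have hz0 := eig_ne_zero A ℓ ℓ' ι hp z hz
  unfold eig at hz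
  split_ifs at hz with h
  · simp at hz
  · push Not at h
    obtain ⟨y, hy, rfl⟩ := Multiset.mem_map.1 hz
    have h1 := A.weight ℓ p hp h.1 ι y (mem_roots'.1 hy).2
    have hp0 : (0 : ℝ) < p := by exact_mod_cast hp.pos
    have h2 : 0 < (p : ℝ) ^ (-w) := Real.rpow_pos_of_pos hp0 _
    rw [norm_inv]
    calc ‖y‖⁻¹ ≤ ((p : ℝ) ^ (-w))⁻¹ := inv_anti₀ h2 h1
      _ = (p : ℝ) ^ w := by rw [Real.rpow_neg hp0.le, inv_inv]

/-- Two families of eigenvalues. -/
lemma two {n : ℕ} {w : ℝ} {c d : ℕ → Multiset ℂ} (hc : Bounded w c) (hd : Bounded w d)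
    (hcc : ∀ p : ℕ, p.Prime → Multiset.card (c p) ≤ n)
    (hdc : ∀ p : ℕ, p.Prime → Multiset.card (d p) ≤ n)
    (hc0 : ∀ p : ℕ, p.Prime → ∀ z ∈ c p, z ≠ 0) (hd0 : ∀ p : ℕ, p.Prime → ∀ z ∈ d p, z ≠ 0)
    (h : Concentrated fun τ => Real.log (edgeAbs w c τ) - Real.log (edgeAbs w d τ)) :
    ∀ p : ℕ, p.Prime → c p = d p := by
  classical
  obtain ⟨C₀, h₀⟩ := nrm_euler hc hcc
  obtain ⟨C₁, h₁⟩ := nrm_euler hd hdc
  intro p hp
  have h2 := Pool.Agent.Y719.EL.M.eq_tw (κ := Unit)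
    (P₀ := Pool.Agent.Y719.EL.M.PM ∅ (nrm w c))
    (P := fun _ => Pool.Agent.Y719.EL.M.PM ∅ (nrm w d)) (t := fun _ => 0)
    ⟨_, _, _, _, h₀⟩ (fun _ => ⟨_, _, _, _, h₁⟩) (by
      refine cast (congrArg Concentrated ?_) h
      funext τ
      simp [eabs_nrm]) hp (h₀.goodAt hp (Finset.notMem_empty _))
      (fun _ => h₁.goodAt hp (Finset.notMem_empty _))
  unfold Pool.Agent.Y719.EL.M.tw at h2
  simp only [Finset.univ_unique, Finset.prod_singleton] at h2
  have h3 : Pool.Agent.Y719.EL.M.PM ∅ (nrm w c) p = Pool.Agent.Y719.EL.M.PM ∅ (nrm w d) p := by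
    simpa using h2
  have hp0 : (0 : ℝ) < p := by exact_mod_cast hp.pos
  have hr : (((p : ℝ) ^ (-w) : ℝ) : ℂ) ≠ 0 := by
    exact_mod_cast (Real.rpow_pos_of_pos hp0 _).ne'
  have hinj : Function.Injective fun z : ℂ => z * (((p : ℝ) ^ (-w) : ℝ) : ℂ) :=
    fun a b hab => mul_right_cancel₀ hr hab
  have h4 := Pool.Agent.Y719.EL.M.inj (s := nrm w c p) (t := nrm w d p)
    (fun z hz => by
      obtain ⟨y, hy, rfl⟩ := Multiset.mem_map.1 hz
      exact mul_ne_zero (hc0 p hp y hy) hr)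
    (fun z hz => by
      obtain ⟨y, hy, rfl⟩ := Multiset.mem_map.1 hz
      exact mul_ne_zero (hd0 p hp y hy) hr) h3
  exact Multiset.map_injective hinj h4

/-- **The moduli decide about independence of `ℓ` at all primes.**  Let `P_{p,ℓ}` be the polynomials of
the local Euler factors of a realisation of a motive and, for every prime number `ℓ`, let `ι_ℓ` be an
embedding of `ℚ_ℓ` in `ℂ`.  The following are equivalent.

1. For every prime number `p` there is a polynomial `Q` with rational coefficients such that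
  `P_{p,ℓ} = Q` for all `ℓ ≠ p`.
2. For all `ℓ`, `ℓ'` and all automorphisms `σ`, `σ'` of `ℂ`, the absolute values of the Euler products
  for `(ℓ, σ ∘ ι_ℓ)` and `(ℓ', σ' ∘ ι_ℓ')`, without the factors at `ℓ` and `ℓ'`, are equal almost
  everywhere on the line `Re s = w + 1`.
3. For all such `ℓ`, `ℓ'`, `σ`, `σ'`, the logarithm of the quotient of these absolute values is
  concentrated, for example constant on a set of positive upper density. -/
theorem result (n : ℕ) (w : ℝ) (A : Factors n w) (ι : ∀ ℓ : Nat.Primes, ℚ_[ℓ] →+* ℂ) : List.TFAE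
    [∀ p : ℕ, p.Prime → ∃ Q : ℚ[X], ∀ ℓ : Nat.Primes, p ≠ ℓ →
        A.P ℓ p = Q.map (algebraMap ℚ ℚ_[ℓ]),
     ∀ (ℓ ℓ' : Nat.Primes) (σ σ' : ℂ ≃+* ℂ), ∀ᵐ τ : ℝ,
        edgeAbs w (eig A ℓ ℓ' ((σ : ℂ →+* ℂ).comp (ι ℓ))) τ =
          edgeAbs w (eig A ℓ' ℓ ((σ' : ℂ →+* ℂ).comp (ι ℓ'))) τ,
     ∀ (ℓ ℓ' : Nat.Primes) (σ σ' : ℂ ≃+* ℂ), Concentrated fun τ =>
        Real.log (edgeAbs w (eig A ℓ ℓ' ((σ : ℂ →+* ℂ).comp (ι ℓ))) τ) -
          Real.log (edgeAbs w (eig A ℓ' ℓ ((σ' : ℂ →+* ℂ).comp (ι ℓ'))) τ)] := by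
  tfae_have 1 → 2 := by
    intro h l m σ σ'
    have h1 : ∀ s, L (eig A l m ((σ : ℂ →+* ℂ).comp (ι l))) s =
        L (eig A m l ((σ' : ℂ →+* ℂ).comp (ι m))) s := by
      intro s
      unfold L
      refine tprod_congr fun p => ?_
      have h2 : eig A l m ((σ : ℂ →+* ℂ).comp (ι l)) p =
          eig A m l ((σ' : ℂ →+* ℂ).comp (ι m)) p := by
        unfold eig
        by_cases h3 : (p : ℕ) = l ∨ (p : ℕ) = m
        · rw [if_pos h3, if_pos h3.symm]
        · rw [if_neg h3, if_neg (fun h4 => h3 h4.symm)]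
          push Not at h3
          obtain ⟨Q, hQ⟩ := h p p.2
          have h5 : ∀ k : Nat.Primes, (p : ℕ) ≠ k → ∀ j : ℚ_[k] →+* ℂ,
              (A.P k p).map j = Q.map (algebraMap ℚ ℂ) := by
            intro k hk j
            rw [hQ k hk, Polynomial.map_map]
            congr 1
            exact Subsingleton.elim _ _
          rw [h5 l h3.1, h5 m h3.2]
      rw [h2]
    refine Eventually.of_forall fun τ => ?_
    unfold edgeAbs
    simp_rw [h1]
  tfae_have 2 → 3 := by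
    intro h l m σ σ'
    refine Pool.Agent.Y719.EL.M.concentrated_of_ae ?_
    filter_upwards [h l m σ σ'] with τ hτ
    rw [hτ, sub_self]
  tfae_have 3 → 1 := by
    intro h p hp
    have key : ∀ (l m : Nat.Primes) (σ σ' : ℂ ≃+* ℂ), p ≠ l → p ≠ m →
        (A.P l p).map ((σ : ℂ →+* ℂ).comp (ι l)) = (A.P m p).map ((σ' : ℂ →+* ℂ).comp (ι m)) := by
      intro l m σ σ' hl hm
      have h1 := two (eig_bounded A l m _) (eig_bounded A m l _)
        (fun p hp => eig_card A l m _ hp) (fun p hp => eig_card A m l _ hp)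
        (fun p hp => eig_ne_zero A l m _ hp) (fun p hp => eig_ne_zero A m l _ hp)
        (h l m σ σ') p hp
      unfold eig at h1
      rw [if_neg (by push Not; exact ⟨hl, hm⟩), if_neg (by push Not; exact ⟨hm, hl⟩)] at h1
      have e1 := Pool.Agent.Y719.EL.M.prod_sat (P := (A.P l p).map ((σ : ℂ →+* ℂ).comp (ι l)))
        (by rw [coeff_map, A.one l p hp hl, map_one])
      have e2 := Pool.Agent.Y719.EL.M.prod_sat (P := (A.P m p).map ((σ' : ℂ →+* ℂ).comp (ι m)))
        (by rw [coeff_map, A.one m p hp hm, map_one])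
      unfold Pool.Agent.Y719.EL.M.sat at e1 e2
      rw [← e1, ← e2, h1]
    -- a prime different from `p`
    obtain ⟨l₀, hl₀⟩ : ∃ l : Nat.Primes, p ≠ l := by
      obtain ⟨q, hq1, hq2⟩ := Nat.exists_infinite_primes (p + 1)
      exact ⟨⟨q, hq2⟩, by change p ≠ q; omega⟩
    have hrat : ∀ i, ∃ q : ℚ, (q : ℂ) = ((A.P l₀ p).map (ι l₀)).coeff i := by
      intro i
      refine Pool.Agent.W655.PG.rat_of_fixed fun τ => ?_
      have h1 := congrArg (fun R => R.coeff i) (key l₀ l₀ τ (RingEquiv.refl ℂ) hl₀ hl₀)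
      simp only [coeff_map] at h1 ⊢
      exact h1
    choose c hc using hrat
    let Q : ℚ[X] := ∑ i ∈ Finset.range ((A.P l₀ p).natDegree + 1), Polynomial.monomial i (c i)
    have hQ : Q.map (algebraMap ℚ ℂ) = (A.P l₀ p).map (ι l₀) := by
      apply Polynomial.ext
      intro i
      rw [coeff_map, Polynomial.finsetSum_coeff]
      simp only [Polynomial.coeff_monomial, Finset.sum_ite_eq', Finset.mem_range]
      split_ifs with hi
      · exact hc i
      · rw [map_zero, coeff_map, coeff_eq_zero_of_natDegree_lt (by omega), map_zero]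
    refine ⟨Q, fun l hl => ?_⟩
    have h1 := key l₀ l (RingEquiv.refl ℂ) (RingEquiv.refl ℂ) hl₀ hl
    apply Polynomial.map_injective (ι l) (ι l).injective
    have h2 : ∀ k : Nat.Primes, (A.P k p).map (((RingEquiv.refl ℂ : ℂ ≃+* ℂ) : ℂ →+* ℂ).comp (ι k)) =
        (A.P k p).map (ι k) := fun k => rfl
    rw [h2, h2] at h1
    rw [← h1, ← hQ, Polynomial.map_map]
    congr 1
    exact Subsingleton.elim _ _
  tfae_finish

end Pool.Agent.Results.MP_a3c811_ag.ModuliDecide
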