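import Pool.Agent.Y116.WD.Main

/-!
# Independence of `ℓ` of the local Euler factors of all motives is equivalent to independence
of `ℓ` of the Weil–Deligne representations
-/

set_option autoImplicit false

namespace Pool.Agent.Results.MP_a3c811_ag.WeilDeligne

open Pool.Agent.Y116.WD

theorem result {W : Type} [Group W] [TopologicalSpace W] [IsTopologicalGroup W]
    (G : WeilGroup W) (Λ : Type) (K : Λ → Type) [∀ l, Field (K l)] [∀ l, CharZero (K l)] :
    (∀ A : Family G Λ K, A.TwistEuler ↔ A.WDIndep) ∧
    ∀ Mot : Family G Λ K → Prop, Closed Mot →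
      ((∀ A, Mot A → A.EulerIndep) ↔ ∀ A, Mot A → A.WDIndep) :=
  ⟨fun A => A.twistEuler_iff, fun _ h => class_iff h⟩

end Pool.Agent.Results.MP_a3c811_ag.WeilDeligne
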